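import Mathlib

set_option autoImplicit false
namespace Pool.Agent.TH193.Stab

open Filter Topology ZeroAtInfty MeasureTheory

/-- the multipliers `exp ((-1 + i n) t)` -/
noncomputable def m (t : ℝ) (n : ℕ) : ℂ := Complex.exp ((-1 + (n : ℂ) * Complex.I) * (t : ℂ))

lemma norm_m (t : ℝ) (n : ℕ) : ‖m t n‖ = Real.exp (-t) := by
  unfold m
  rw [Complex.norm_exp]
  simp

lemma m_zero (n : ℕ) : m 0 n = 1 := by simp [m]

lemma m_add (s t : ℝ) (n : ℕ) : m (s + t) n = m s n * m t n := by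
  unfold m
  rw [← Complex.exp_add]
  congr 1
  push_cast
  ring

lemma norm_le_iff (f : C₀(ℕ, ℂ)) {C : ℝ} (hC : 0 ≤ C) : ‖f‖ ≤ C ↔ ∀ n, ‖f n‖ ≤ C := by
  rw [← ZeroAtInftyContinuousMap.norm_toBCF_eq_norm, BoundedContinuousFunction.norm_le hC]
  rfl

lemma norm_apply_le (f : C₀(ℕ, ℂ)) (n : ℕ) : ‖f n‖ ≤ ‖f‖ :=
  (norm_le_iff f (norm_nonneg f)).1 le_rfl n

/-- the semigroup, as linear maps -/
noncomputable def L (t : ℝ) : C₀(ℕ, ℂ) →ₗ[ℂ] C₀(ℕ, ℂ) where
  toFun f := ⟨⟨fun n => m t n * f n, continuous_of_discreteTopology⟩, by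
    have h := zero_at_infty f
    apply squeeze_zero_norm (a := fun n : ℕ => Real.exp (-t) * ‖f n‖)
    · intro n
      change ‖m t n * f n‖ ≤ _
      rw [norm_mul, norm_m]
    · have := (h.norm).const_mul (Real.exp (-t))
      simpa using this⟩
  map_add' f g := by
    ext n
    change m t n * (f n + g n) = m t n * f n + m t n * g n
    ring
  map_smul' r f := by
    ext n
    change m t n * (r * f n) = r * (m t n * f n)
    ring

/-- the semigroup -/
noncomputable def T (t : ℝ) : C₀(ℕ, ℂ) →L[ℂ] C₀(ℕ, ℂ) := (L t).mkContinuous (Real.exp (-t)) (by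
  intro f
  rw [norm_le_iff _ (by positivity)]
  intro n
  change ‖m t n * f n‖ ≤ _
  rw [norm_mul, norm_m]
  exact mul_le_mul_of_nonneg_left (norm_apply_le f _) (Real.exp_pos _).le)

lemma T_apply (t : ℝ) (f : C₀(ℕ, ℂ)) (n : ℕ) : T t f n = m t n * f n := rfl

lemma norm_T_le (t : ℝ) : ‖T t‖ ≤ Real.exp (-t) :=
  LinearMap.mkContinuous_norm_le _ (Real.exp_pos _).le _

lemma T_zero : T 0 = 1 := by
  ext f n
  rw [T_apply, m_zero, one_mul]; rfl

lemma T_add (s t : ℝ) : T (s + t) = T s * T t := by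
  ext f n
  change m (s + t) n * f n = m s n * (m t n * f n)
  rw [m_add, mul_assoc]

lemma T_cont (f : C₀(ℕ, ℂ)) : ContinuousOn (fun t : ℝ => T t f) (Set.Ici (0 : ℝ)) := by
  intro s hs
  rw [ContinuousWithinAt, Metric.tendsto_nhds]
  intro ε hε
  have h := zero_at_infty f
  rw [_root_.cocompact_eq_atTop] at h
  obtain ⟨N, hN⟩ := (Metric.tendsto_atTop.1 h) (ε / 5) (by positivity)
  have h1 : ∀ᶠ t in 𝓝[Set.Ici 0] s, ∀ n ∈ Finset.range N, ‖m t n * f n - m s n * f n‖ < ε / 2 := by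
    rw [Filter.eventually_all_finset]
    intro n _
    have hc : Continuous (fun t : ℝ => m t n * f n) := by
      unfold m; fun_prop
    have := (hc.tendsto s).mono_left (nhdsWithin_le_nhds (s := Set.Ici (0 : ℝ)))
    have := Metric.tendsto_nhds.1 this (ε / 2) (by positivity)
    filter_upwards [this] with t ht
    rwa [dist_eq_norm] at ht
  filter_upwards [h1, self_mem_nhdsWithin] with t ht ht0
  rw [dist_eq_norm]
  refine lt_of_le_of_lt ((norm_le_iff _ (by positivity : 0 ≤ ε / 2)).2 ?_) (by linarith)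
  intro n
  rw [ZeroAtInftyContinuousMap.sub_apply, T_apply, T_apply]
  by_cases hn : n < N
  · exact (ht n (Finset.mem_range.2 hn)).le
  · have h2 := hN n (by omega)
    rw [dist_eq_norm, sub_zero] at h2
    have h3 : Real.exp (-t) ≤ 1 := Real.exp_le_one_iff.2 (by simpa using ht0)
    have h4 : Real.exp (-s) ≤ 1 := Real.exp_le_one_iff.2 (by simpa using hs)
    calc ‖m t n * f n - m s n * f n‖ ≤ ‖m t n * f n‖ + ‖m s n * f n‖ := norm_sub_le _ _
      _ = Real.exp (-t) * ‖f n‖ + Real.exp (-s) * ‖f n‖ := by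
        rw [norm_mul, norm_mul, norm_m, norm_m]
      _ ≤ 1 * ‖f n‖ + 1 * ‖f n‖ := by
        gcongr
      _ ≤ ε / 2 := by linarith

/-- the vector `1/sqrt(n+1)` -/
noncomputable def x : C₀(ℕ, ℂ) where
  toFun n := ((1 / Real.sqrt ((n : ℝ) + 1) : ℝ) : ℂ)
  continuous_toFun := continuous_of_discreteTopology
  zero_at_infty' := by
    rw [_root_.cocompact_eq_atTop]
    have h1 : Tendsto (fun n : ℕ => (n : ℝ) + 1) atTop atTop :=
      tendsto_atTop_add_const_right _ _ tendsto_natCast_atTop_atTop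
    have h2 : Tendsto (fun n : ℕ => 1 / Real.sqrt ((n : ℝ) + 1)) atTop (𝓝 0) := by
      simp only [one_div]
      exact (Real.tendsto_sqrt_atTop.comp h1).inv_tendsto_atTop
    have h3 := (Complex.continuous_ofReal.tendsto 0).comp h2
    rw [Complex.ofReal_zero] at h3
    exact h3

lemma x_apply (n : ℕ) : x n = ((1 / Real.sqrt ((n : ℝ) + 1) : ℝ) : ℂ) := rfl

/-- evaluation -/
noncomputable def ev (n : ℕ) : C₀(ℕ, ℂ) →L[ℂ] ℂ :=
  LinearMap.mkContinuous
    { toFun := fun f => f n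
      map_add' := fun _ _ => rfl
      map_smul' := fun _ _ => rfl } 1 (by
      intro f
      rw [one_mul]
      exact norm_apply_le f n)

lemma ev_apply (n : ℕ) (f : C₀(ℕ, ℂ)) : ev n f = f n := rfl

/-- the integrand of the resolvent -/
noncomputable def F (a s t : ℝ) : C₀(ℕ, ℂ) :=
  Complex.exp (-(((a : ℂ) + (s : ℂ) * Complex.I) * (t : ℂ))) • T t x

lemma norm_F_le (a s t : ℝ) : ‖F a s t‖ ≤ Real.exp (-(a + 1) * t) * ‖x‖ := by
  unfold F
  rw [norm_smul, Complex.norm_exp]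
  have h1 : (-(((a : ℂ) + (s : ℂ) * Complex.I) * (t : ℂ))).re = -a * t := by simp
  rw [h1]
  calc Real.exp (-a * t) * ‖T t x‖ ≤ Real.exp (-a * t) * (Real.exp (-t) * ‖x‖) := by
        gcongr
        exact (T t).le_of_opNorm_le (norm_T_le t) x
    _ = Real.exp (-(a + 1) * t) * ‖x‖ := by
        rw [← mul_assoc, ← Real.exp_add]
        congr 2
        ring

lemma F_integrable {a : ℝ} (ha : 0 < a) (s : ℝ) : IntegrableOn (F a s) (Set.Ioi 0) := by
  have hc : ContinuousOn (F a s) (Set.Ioi 0) := by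
    have h1 : ContinuousOn (fun t : ℝ => Complex.exp (-(((a : ℂ) + (s : ℂ) * Complex.I) *
        (t : ℂ)))) (Set.Ioi 0) := by
      apply Continuous.continuousOn
      fun_prop
    exact h1.smul ((T_cont x).mono Set.Ioi_subset_Ici_self)
  have hm : AEStronglyMeasurable (F a s) (volume.restrict (Set.Ioi 0)) :=
    hc.aestronglyMeasurable measurableSet_Ioi
  have hi : IntegrableOn (fun t : ℝ => Real.exp (-(a + 1) * t) * ‖x‖) (Set.Ioi 0) := by
    apply Integrable.mul_const
    exact exp_neg_integrableOn_Ioi 0 (by linarith)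
  refine Integrable.mono' hi hm ?_
  filter_upwards with t
  exact norm_F_le a s t

lemma ev_integral {a : ℝ} (ha : 0 < a) (s : ℝ) (n : ℕ) :
    (∫ t in Set.Ioi (0 : ℝ), F a s t) n =
      x n / ((a : ℂ) + 1 + ((s : ℂ) - n) * Complex.I) := by
  rw [← ev_apply, ← ContinuousLinearMap.integral_comp_comm _ (F_integrable ha s)]
  have h1 : ∀ t : ℝ, ev n (F a s t) =
      x n * Complex.exp ((-((a : ℂ) + 1 + ((s : ℂ) - n) * Complex.I)) * t) := by
    intro t
    rw [ev_apply]
    unfold F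
    rw [ZeroAtInftyContinuousMap.smul_apply, T_apply, smul_eq_mul]
    unfold m
    rw [← mul_assoc, ← Complex.exp_add, mul_comm]
    congr 2
    ring
  simp_rw [h1]
  rw [integral_const_mul, integral_exp_mul_complex_Ioi]
  · rw [Complex.ofReal_zero, mul_zero, Complex.exp_zero, neg_div_neg_eq, mul_one_div]
  · simp; linarith

lemma lower {a : ℝ} (ha : 0 < a) (ha1 : a < 1) (n : ℕ) {s : ℝ} (hs : s ∈ Set.Ioc (n : ℝ) (n + 1)) :
    ENNReal.ofReal (1 / (9 * ((n : ℝ) + 1))) ≤
      ((‖∫ t in Set.Ioi (0 : ℝ), F a s t‖₊ : ENNReal)) ^ 2 := by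
  have h1 : (1 / Real.sqrt ((n : ℝ) + 1)) / 3 ≤ ‖∫ t in Set.Ioi (0 : ℝ), F a s t‖ := by
    refine le_trans ?_ (norm_apply_le _ n)
    rw [ev_integral ha, norm_div, x_apply, Complex.norm_real, Real.norm_eq_abs,
      abs_of_nonneg (by positivity)]
    apply div_le_div_of_nonneg_left (by positivity)
    · rw [norm_pos_iff]
      intro h
      have := congrArg Complex.re h
      simp at this
      linarith
    · have e1 : (a : ℂ) + 1 + ((s : ℂ) - n) * Complex.I =
          ((a + 1 : ℝ) : ℂ) + ((s - n : ℝ) : ℂ) * Complex.I := by push_cast; ring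
      rw [e1]
      refine (norm_add_le _ _).trans ?_
      rw [norm_mul, Complex.norm_I, mul_one, Complex.norm_real, Complex.norm_real,
        Real.norm_eq_abs, Real.norm_eq_abs, abs_of_pos (by linarith : 0 < a + 1),
        abs_of_pos (by linarith [hs.1] : 0 < s - n)]
      linarith [hs.2]
  have h2 : ((‖∫ t in Set.Ioi (0 : ℝ), F a s t‖₊ : ENNReal)) ^ 2 =
      ENNReal.ofReal (‖∫ t in Set.Ioi (0 : ℝ), F a s t‖ ^ 2) := by
    rw [ENNReal.ofReal_pow (norm_nonneg _), ofReal_norm]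
    rfl
  rw [h2]
  apply ENNReal.ofReal_le_ofReal
  have h3 : 1 / (9 * ((n : ℝ) + 1)) = ((1 / Real.sqrt ((n : ℝ) + 1)) / 3) ^ 2 := by
    rw [div_pow, div_pow, Real.sq_sqrt (by positivity)]
    field_simp
    norm_num
  rw [h3]
  gcongr

lemma lintegral_top {a : ℝ} (ha : 0 < a) (ha1 : a < 1) :
    (∫⁻ s : ℝ, ((‖∫ t in Set.Ioi (0 : ℝ), F a s t‖₊ : ENNReal)) ^ 2) = ⊤ := by
  rw [eq_top_iff]
  have hdis : Pairwise (Function.onFun Disjoint fun n : ℕ => Set.Ioc (n : ℝ) (n + 1)) := by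
    intro i j hij
    rw [Function.onFun, Set.disjoint_left]
    rintro s ⟨h1, h2⟩ ⟨h3, h4⟩
    apply hij
    have h5 : (i : ℝ) < j + 1 := by linarith
    have h6 : (j : ℝ) < i + 1 := by linarith
    have h7 : i < j + 1 := by exact_mod_cast h5
    have h8 : j < i + 1 := by exact_mod_cast h6
    omega
  calc (⊤ : ENNReal) = ∑' n : ℕ, ENNReal.ofReal (1 / (9 * ((n : ℝ) + 1))) := by
        symm
        by_contra hne
        have hs := ENNReal.summable_toReal hne
        have hs2 : Summable (fun n : ℕ => 1 / (9 * ((n : ℝ) + 1))) := by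
          refine hs.congr (fun n => ?_)
          rw [ENNReal.toReal_ofReal (by positivity)]
        have hs3 : Summable (fun n : ℕ => 1 / (((n + 1 : ℕ) : ℝ))) := by
          refine (hs2.mul_left 9).congr (fun n => ?_)
          push_cast
          field_simp
        rw [summable_nat_add_iff (f := fun n : ℕ => 1 / (n : ℝ)) 1] at hs3
        exact Real.not_summable_one_div_natCast hs3
    _ = ∑' n : ℕ, ∫⁻ _ in Set.Ioc (n : ℝ) (n + 1), ENNReal.ofReal (1 / (9 * ((n : ℝ) + 1))) := by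
        congr 1
        ext n
        rw [setLIntegral_const, Real.volume_Ioc]
        simp
    _ ≤ ∑' n : ℕ, ∫⁻ s in Set.Ioc (n : ℝ) (n + 1),
          ((‖∫ t in Set.Ioi (0 : ℝ), F a s t‖₊ : ENNReal)) ^ 2 := by
        apply ENNReal.tsum_le_tsum
        intro n
        apply setLIntegral_mono' measurableSet_Ioc
        intro s hs
        exact lower ha ha1 n hs
    _ = ∫⁻ s in ⋃ n : ℕ, Set.Ioc (n : ℝ) (n + 1),
          ((‖∫ t in Set.Ioi (0 : ℝ), F a s t‖₊ : ENNReal)) ^ 2 := by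
        rw [lintegral_iUnion (fun n => measurableSet_Ioc) hdis]
    _ ≤ ∫⁻ s : ℝ, ((‖∫ t in Set.Ioi (0 : ℝ), F a s t‖₊ : ENNReal)) ^ 2 :=
        setLIntegral_le_lintegral _ _

lemma T_tendsto : Tendsto (fun t : ℝ => T t x) atTop (𝓝 0) := by
  apply squeeze_zero_norm (a := fun t : ℝ => Real.exp (-t) * ‖x‖)
  · intro t
    exact (T t).le_of_opNorm_le (norm_T_le t) x
  · have := Real.tendsto_exp_neg_atTop_nhds_zero.mul_const ‖x‖
    simpa using this

end Pool.Agent.TH193.Stab
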